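import Mathlib

/-!
# MP_71be7b_lc: continuum many isomorphism types of `k`-generated projective algebras
-/

namespace Pool.Agent.Results.MP_71be7b_lc.Continuum

open Set Cardinal

/-- the horizontal axis -/
def axX : Set (ℝ × ℝ) := {q | q.2 = 0}

/-- the vertical axis -/
def axY : Set (ℝ × ℝ) := {q | q.1 = 0}

/-- projection onto the horizontal axis -/
def p1 (S : Set (ℝ × ℝ)) : Set (ℝ × ℝ) := {q | q.2 = 0 ∧ ∃ y, (q.1, y) ∈ S}

/-- projection onto the vertical axis -/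
def p2 (S : Set (ℝ × ℝ)) : Set (ℝ × ℝ) := {q | q.1 = 0 ∧ ∃ x, (x, q.2) ∈ S}

/-- the product of a subset of the horizontal axis and a subset of the vertical axis -/
def ot (A B : Set (ℝ × ℝ)) : Set (ℝ × ℝ) := {q | (q.1, 0) ∈ A ∧ (0, q.2) ∈ B}

/-- projective algebras of plane sets -/
structure IsPA (F : Set (Set (ℝ × ℝ))) : Prop where
  compl : ∀ A ∈ F, Aᶜ ∈ F
  union : ∀ A ∈ F, ∀ B ∈ F, A ∪ B ∈ F
  p1 : ∀ A ∈ F, p1 A ∈ F
  p2 : ∀ A ∈ F, p2 A ∈ F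
  ot : ∀ A ∈ F, ∀ B ∈ F, A ⊆ axX → B ⊆ axY → ot A B ∈ F

/-- the projective algebra generated by `S 0, ..., S (k-1)` -/
def gen {k : ℕ} (S : Fin k → Set (ℝ × ℝ)) : Set (Set (ℝ × ℝ)) := ⋂₀ {F | IsPA F ∧ ∀ i, S i ∈ F}

/-- isomorphism of projective algebras -/
def Iso (F G : Set (Set (ℝ × ℝ))) : Prop :=
  ∃ φ : Set (ℝ × ℝ) → Set (ℝ × ℝ), BijOn φ F G ∧ (∀ A ∈ F, φ Aᶜ = (φ A)ᶜ) ∧
    (∀ A ∈ F, ∀ B ∈ F, φ (A ∪ B) = φ A ∪ φ B) ∧ (∀ A ∈ F, φ (p1 A) = p1 (φ A)) ∧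
    (∀ A ∈ F, φ (p2 A) = p2 (φ A)) ∧
    ∀ A ∈ F, ∀ B ∈ F, A ⊆ axX → B ⊆ axY → φ (ot A B) = ot (φ A) (φ B)

/-- the projective algebras generated by `k` sets -/
def Gen (k : ℕ) : Type := {F : Set (Set (ℝ × ℝ)) // ∃ S : Fin k → Set (ℝ × ℝ), F = gen S}

/-- isomorphism as a relation on `Gen k` -/
def IsoGen (k : ℕ) (F G : Gen k) : Prop := Iso F.1 G.1

inductive Tm (k : ℕ) : Type
  | var : Fin k → Tm k
  | compl : Tm k → Tm k
  | union : Tm k → Tm k → Tm k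
  | p1 : Tm k → Tm k
  | p2 : Tm k → Tm k
  | ot : Tm k → Tm k → Tm k
  deriving Countable

variable {k : ℕ}

def ev (S : Fin k → Set (ℝ × ℝ)) : Tm k → Set (ℝ × ℝ)
  | .var i => S i
  | .compl t => (ev S t)ᶜ
  | .union t u => ev S t ∪ ev S u
  | .p1 t => p1 (ev S t)
  | .p2 t => p2 (ev S t)
  | .ot t u => ot (p1 (ev S t)) (p2 (ev S u))

theorem p1_sub (A : Set (ℝ × ℝ)) : p1 A ⊆ axX := fun _ h => h.1

theorem p2_sub (A : Set (ℝ × ℝ)) : p2 A ⊆ axY := fun _ h => h.1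

theorem p1_eq {A : Set (ℝ × ℝ)} (h : A ⊆ axX) : p1 A = A := by
  ext ⟨x, y⟩
  constructor
  · rintro ⟨h1, z, hz⟩
    have h2 : z = 0 := h hz
    simp only at h1
    rw [h1, ← h2]
    exact hz
  · exact fun h1 => ⟨h h1, y, h1⟩

theorem p2_eq {A : Set (ℝ × ℝ)} (h : A ⊆ axY) : p2 A = A := by
  ext ⟨x, y⟩
  constructor
  · rintro ⟨h1, z, hz⟩
    have h2 : z = 0 := h hz
    simp only at h1
    rw [h1, ← h2]
    exact hz
  · exact fun h1 => ⟨h h1, x, h1⟩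

theorem gen_eq (S : Fin k → Set (ℝ × ℝ)) : gen S = range (ev S) := by
  apply subset_antisymm
  · refine sInter_subset_of_mem ⟨⟨?_, ?_, ?_, ?_, ?_⟩, fun i => ⟨.var i, rfl⟩⟩
    · rintro _ ⟨t, rfl⟩; exact ⟨.compl t, rfl⟩
    · rintro _ ⟨t, rfl⟩ _ ⟨u, rfl⟩; exact ⟨.union t u, rfl⟩
    · rintro _ ⟨t, rfl⟩; exact ⟨.p1 t, rfl⟩
    · rintro _ ⟨t, rfl⟩; exact ⟨.p2 t, rfl⟩
    · rintro _ ⟨t, rfl⟩ _ ⟨u, rfl⟩ h1 h2
      exact ⟨.ot t u, by simp only [ev, p1_eq h1, p2_eq h2]⟩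
  · rintro _ ⟨t, rfl⟩ F ⟨hF, hS⟩
    induction t with
    | var i => exact hS i
    | compl t ih => exact hF.compl _ ih
    | union t u iht ihu => exact hF.union _ iht _ ihu
    | p1 t ih => exact hF.p1 _ ih
    | p2 t ih => exact hF.p2 _ ih
    | ot t u iht ihu => exact hF.ot _ (hF.p1 _ iht) _ (hF.p2 _ ihu) (p1_sub _) (p2_sub _)

theorem iso_of_ker {S S' : Fin k → Set (ℝ × ℝ)}
    (h : ∀ t u, ev S t = ev S u ↔ ev S' t = ev S' u) : Iso (gen S) (gen S') := by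
  classical
  let φ : Set (ℝ × ℝ) → Set (ℝ × ℝ) := fun A => if h : ∃ t, ev S t = A then ev S' h.choose else ∅
  have hφ : ∀ t, φ (ev S t) = ev S' t := fun t => by
    have h1 : ∃ u, ev S u = ev S t := ⟨t, rfl⟩
    simp only [φ, dif_pos h1]
    exact (h _ _).1 h1.choose_spec
  rw [gen_eq, gen_eq]
  refine ⟨φ, ⟨?_, ?_, ?_⟩, ?_, ?_, ?_, ?_, ?_⟩
  · rintro _ ⟨t, rfl⟩; exact ⟨t, (hφ t).symm⟩
  · rintro _ ⟨t, rfl⟩ _ ⟨u, rfl⟩ h1
    rw [hφ, hφ] at h1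
    exact (h _ _).2 h1
  · rintro _ ⟨t, rfl⟩; exact ⟨_, ⟨t, rfl⟩, hφ t⟩
  · rintro _ ⟨t, rfl⟩; rw [hφ]; exact hφ (.compl t)
  · rintro _ ⟨t, rfl⟩ _ ⟨u, rfl⟩; rw [hφ, hφ]; exact hφ (.union t u)
  · rintro _ ⟨t, rfl⟩; rw [hφ]; exact hφ (.p1 t)
  · rintro _ ⟨t, rfl⟩; rw [hφ]; exact hφ (.p2 t)
  · rintro _ ⟨t, rfl⟩ _ ⟨u, rfl⟩ h1 h2
    have e1 : ev S' (.p1 t) = ev S' t := (h _ _).1 (p1_eq h1)
    have e2 : ev S' (.p2 u) = ev S' u := (h _ _).1 (p2_eq h2)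
    have e3 := hφ (.ot t u)
    simp only [ev] at e1 e2 e3
    rw [p1_eq h1, p2_eq h2, e1, e2] at e3
    rw [hφ, hφ, e3]

theorem ker_of_iso {S : Fin k → Set (ℝ × ℝ)} {G : Set (Set (ℝ × ℝ))} (h : Iso (gen S) G) :
    ∃ S' : Fin k → Set (ℝ × ℝ), G = range (ev S') ∧
      ∀ t u, ev S t = ev S u ↔ ev S' t = ev S' u := by
  rw [gen_eq] at h
  obtain ⟨φ, hb, h1, h2, h3, h4, h5⟩ := h
  have hφ : ∀ t, φ (ev S t) = ev (fun i => φ (S i)) t := by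
    intro t
    induction t with
    | var i => rfl
    | compl t ih => simp only [ev]; rw [h1 _ ⟨t, rfl⟩, ih]
    | union t u iht ihu => simp only [ev]; rw [h2 _ ⟨t, rfl⟩ _ ⟨u, rfl⟩, iht, ihu]
    | p1 t ih => simp only [ev]; rw [h3 _ ⟨t, rfl⟩, ih]
    | p2 t ih => simp only [ev]; rw [h4 _ ⟨t, rfl⟩, ih]
    | ot t u iht ihu =>
      simp only [ev]
      rw [h5 (p1 (ev S t)) ⟨.p1 t, rfl⟩ (p2 (ev S u)) ⟨.p2 u, rfl⟩ (p1_sub _) (p2_sub _),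
        h3 _ ⟨t, rfl⟩, h4 _ ⟨u, rfl⟩,
        iht, ihu]
  refine ⟨fun i => φ (S i), ?_, fun t u => ?_⟩
  · rw [← hb.image_eq, ← range_comp]
    exact congrArg range (funext hφ)
  · rw [← hφ, ← hφ]
    exact ⟨congrArg φ, hb.injOn ⟨t, rfl⟩ ⟨u, rfl⟩⟩

theorem iso_iff (F G : Gen k) : IsoGen k F G ↔ ∃ S S' : Fin k → Set (ℝ × ℝ),
    F.1 = gen S ∧ G.1 = gen S' ∧ ∀ t u, ev S t = ev S u ↔ ev S' t = ev S' u := by
  constructor
  · obtain ⟨_, S, rfl⟩ := F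
    intro h
    obtain ⟨S', h1, h2⟩ := ker_of_iso h
    exact ⟨S, S', rfl, by rw [h1, gen_eq], h2⟩
  · rintro ⟨S, S', h1, h2, h3⟩
    unfold IsoGen
    rw [h1, h2]
    exact iso_of_ker h3

theorem equiv : Equivalence (IsoGen k) where
  refl F := by
    obtain ⟨_, S, rfl⟩ := F
    exact iso_of_ker fun _ _ => Iff.rfl
  symm h := by
    obtain ⟨S, S', h1, h2, h3⟩ := (iso_iff _ _).1 h
    exact (iso_iff _ _).2 ⟨S', S, h2, h1, fun t u => (h3 t u).symm⟩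
  trans {F G H} h h' := by
    obtain ⟨S, S', h1, h2, h3⟩ := (iso_iff _ _).1 h
    unfold IsoGen at h'
    rw [h2] at h'
    obtain ⟨S'', h4, h5⟩ := ker_of_iso h'
    exact (iso_iff _ _).2 ⟨S, S'', h1, by rw [h4, gen_eq], fun t u => (h3 t u).trans (h5 t u)⟩

theorem upper : #(Quot (IsoGen k)) ≤ 𝔠 := by
  classical
  let K : (Fin k → Set (ℝ × ℝ)) → Set (Tm k × Tm k) := fun S => {p | ev S p.1 = ev S p.2}
  let f : Set (Tm k × Tm k) → Quot (IsoGen k) := fun R =>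
    Quot.mk _ ⟨gen (Function.invFun K R), _, rfl⟩
  have hf : Function.Surjective f := by
    rintro ⟨_, S, rfl⟩
    refine ⟨K S, Quot.sound (iso_of_ker fun t u => ?_)⟩
    have : K (Function.invFun K (K S)) = K S := Function.invFun_eq ⟨S, rfl⟩
    exact Set.ext_iff.1 this (t, u)
  refine (mk_le_of_surjective hf).trans ?_
  rw [mk_set, ← two_power_aleph0]
  exact power_le_power_left two_ne_zero mk_le_aleph0

/-- the generator coding `Z` -/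
def SZ (Z : Set ℕ) : Set (ℝ × ℝ) :=
  {q | (∃ n : ℕ, q.2 = n + 1 ∧ (q.1 = n ∨ q.1 = n + 1)) ∨ (q.2 = 0 ∧ ∃ n ∈ Z, q.1 = n + 1)}

def Tm.inter (t u : Tm k) : Tm k := (t.compl.union u.compl).compl

theorem ev_inter (S : Fin k → Set (ℝ × ℝ)) (t u : Tm k) : ev S (t.inter u) = ev S t ∩ ev S u := by
  simp only [Tm.inter, ev, compl_union, compl_compl]

def tU (i : Fin k) : Tm k := (Tm.var i).union (Tm.var i).compl

theorem ev_tU (S : Fin k → Set (ℝ × ℝ)) (i : Fin k) : ev S (tU i) = Set.univ := union_compl_self _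

def tS (i : Fin k) : Tm k := (Tm.var i).inter (tU i).p1.compl

def tA (i : Fin k) : ℕ → Tm k
  | 0 => (tU i).p1.inter (tU i).p2
  | n + 1 => ((tS i).inter ((tU i).ot ((tS i).inter ((tA i n).ot (tU i))))).p1

theorem ev_tS (Z : Set ℕ) (i : Fin k) : ev (fun _ => SZ Z) (tS i) =
    {q : ℝ × ℝ | ∃ n : ℕ, q.2 = n + 1 ∧ (q.1 = n ∨ q.1 = n + 1)} := by
  ext ⟨x, y⟩
  simp only [tS, ev_inter, ev, ev_tU, SZ, p1, mem_inter_iff, mem_ofPred_eq, mem_compl_iff, mem_univ,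
    exists_const, and_true]
  constructor
  · rintro ⟨h | h, h'⟩
    · exact h
    · exact absurd h.1 h'
  · rintro ⟨n, h1, h2⟩
    exact ⟨Or.inl ⟨n, h1, h2⟩, by rw [h1]; positivity⟩

theorem ev_tA (Z : Set ℕ) (i : Fin k) (n : ℕ) : ev (fun _ => SZ Z) (tA i n) =
    {q : ℝ × ℝ | q.2 = 0 ∧ ∃ m : ℕ, m ≤ n ∧ q.1 = m} := by
  induction n with
  | zero =>
    ext ⟨x, y⟩
    simp [tA, ev_inter, ev, ev_tU, p1, p2]
  | succ n ih =>
    ext ⟨x, y⟩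
    simp only [tA, ev_inter, ev, ev_tU, ev_tS, ih, p1, p2, ot, mem_inter_iff, mem_ofPred_eq,
      mem_univ, exists_const, and_true, true_and]
    refine and_congr_right fun _ => ⟨?_, ?_⟩
    · rintro ⟨z, ⟨a, ha1, ha2⟩, x', ⟨b, hb1, hb2⟩, w, -, m, hm, hx'⟩
      have hab : a = b := by
        have : (a : ℝ) = b := by linarith
        exact_mod_cast this
      subst hab
      have ham : a ≤ m := by
        have : (a : ℝ) ≤ m := by rcases hb2 with h | h <;> linarith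
        exact_mod_cast this
      rcases ha2 with h | h
      · exact ⟨a, by omega, h⟩
      · exact ⟨a + 1, by omega, by rw [h]; push_cast; rfl⟩
    · rintro ⟨m, hm, rfl⟩
      rcases m with _ | m
      · exact ⟨1, ⟨0, by simp, by simp⟩, 0, ⟨0, by simp, by simp⟩, 0, rfl, 0, by omega, by simp⟩
      · exact ⟨m + 1, ⟨m, rfl, Or.inr (by push_cast; rfl)⟩, m, ⟨m, rfl, Or.inl rfl⟩, 0, rfl, m,
          by omega, rfl⟩

def tZ (i : Fin k) (n : ℕ) : Tm k := ((tA i (n + 1)).inter (tA i n).compl).inter (.var i)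

theorem ev_tZ (Z : Set ℕ) (i : Fin k) (n : ℕ) :
    ev (fun _ => SZ Z) (tZ i n) = ev (fun _ => SZ Z) (tU i).compl ↔ n ∉ Z := by
  simp only [tZ, ev_inter, ev, ev_tU, ev_tA, compl_univ, eq_empty_iff_forall_notMem]
  constructor
  · intro h hn
    refine h (n + 1, 0) ⟨⟨⟨rfl, n + 1, le_rfl, by push_cast; rfl⟩, ?_⟩, Or.inr ⟨rfl, n, hn, rfl⟩⟩
    rintro ⟨-, m, hm, h1⟩
    have : (m : ℝ) ≤ n := by exact_mod_cast hm
    simp only at h1
    linarith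
  · rintro hn ⟨x, y⟩ ⟨⟨⟨h1, m, hm, h2⟩, h3⟩, h4 | ⟨-, a, ha, h4⟩⟩
    · obtain ⟨a, ha, -⟩ := h4
      simp only at h1 ha
      have : (0 : ℝ) ≤ a := by positivity
      linarith
    · have hma : m = a + 1 := by
        have : (m : ℝ) = a + 1 := h2.symm.trans h4
        exact_mod_cast this
      by_cases han : a = n
      · exact hn (han ▸ ha)
      · exact h3 ⟨h1, m, by omega, h2⟩

theorem lower (hk : 0 < k) : 𝔠 ≤ #(Quot (IsoGen k)) := by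
  let i : Fin k := ⟨0, hk⟩
  let g : Set ℕ → Quot (IsoGen k) := fun Z => Quot.mk _ ⟨gen fun _ => SZ Z, _, rfl⟩
  have hfib : ∀ c, (g ⁻¹' {c}).Countable := by
    intro c
    obtain ⟨_, S0, rfl⟩ := c
    let d : (Fin k → Tm k) → Set ℕ := fun w =>
      {n | ev (fun j => ev S0 (w j)) (tZ i n) ≠ ev (fun j => ev S0 (w j)) (tU i).compl}
    refine (countable_range d).mono fun Z hZ => ?_
    have h1 : IsoGen k ⟨gen fun _ => SZ Z, _, rfl⟩ ⟨gen S0, _, rfl⟩ :=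
      equiv.eqvGen_iff.1 (Quot.eqvGen_exact hZ)
    obtain ⟨S', h2, h3⟩ := ker_of_iso h1
    have h4 : ∀ j, ∃ t, ev S0 t = S' j := fun j => by
      have : S' j ∈ gen S0 := by
        show S' j ∈ (⟨gen S0, _, rfl⟩ : Gen k).1
        rw [h2]
        exact ⟨.var j, rfl⟩
      rwa [gen_eq] at this
    choose w hw using h4
    refine ⟨w, ?_⟩
    ext n
    simp only [d, hw, mem_ofPred_eq, Ne]
    rw [← h3, ev_tZ, not_not]
  by_contra hlt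
  have h1 : #(Set ℕ) ≤ #(Quot (IsoGen k)) * ℵ₀ :=
    mk_le_mk_mul_of_mk_preimage_le g fun c => le_aleph0_iff_set_countable.2 (hfib c)
  rw [mk_set, mk_nat, two_power_aleph0] at h1
  exact absurd h1 (not_le.2 (Cardinal.mul_lt_of_lt aleph0_le_continuum (not_le.1 hlt)
    aleph0_lt_continuum))

theorem result (k : ℕ) (hk : 0 < k) :
    Equivalence (IsoGen k) ∧ #(Quot (IsoGen k)) = 2 ^ ℵ₀ :=
  ⟨equiv, by rw [two_power_aleph0]; exact le_antisymm upper (lower hk)⟩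

end Pool.Agent.Results.MP_71be7b_lc.Continuum
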